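import Mathlib

/-!
A finite family of vectors over a field of characteristic zero has the same independent subfamilies
as some family of complex vectors.
-/

set_option autoImplicit false

namespace Pool.Agent.H17TC

open Finset

/-- A nontrivial finitely generated `ℚ`-algebra has a homomorphism to `ℂ`. -/
lemma exists_hom' (R : Type) [CommRing R] [Algebra ℚ R] [Nontrivial R] [Algebra.FiniteType ℚ R] :
    Nonempty (R →+* ℂ) := by
  obtain ⟨m, hm⟩ := Ideal.exists_maximal R
  let _ : Field (R ⧸ m) := Ideal.Quotient.field m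
  have : Algebra.FiniteType ℚ (R ⧸ m) :=
    Algebra.FiniteType.of_surjective (Ideal.Quotient.mkₐ ℚ m) (Ideal.Quotient.mkₐ_surjective ℚ m)
  have : Module.Finite ℚ (R ⧸ m) := finite_of_finite_type_of_isJacobsonRing ℚ (R ⧸ m)
  let φ : (R ⧸ m) →ₐ[ℚ] ℂ := IsAlgClosed.lift
  exact ⟨φ.toRingHom.comp (Ideal.Quotient.mk m)⟩

/-- A finitely generated `ℚ`-subalgebra of a field has a homomorphism to `ℂ`. -/
lemma exists_hom {L : Type} [Field L] [CharZero L] (S : Finset L) :
    Nonempty (Algebra.adjoin ℚ (S : Set L) →+* ℂ) := by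
  have : Algebra.FiniteType ℚ (Algebra.adjoin ℚ (S : Set L)) :=
    (Subalgebra.fg_iff_finiteType _).1 ⟨S, rfl⟩
  exact exists_hom' _

lemma li_of_left {K : Type} [Field K] {n m : ℕ} (F : Finset (Fin n)) (a c : Fin n → Fin m → K)
    (h : ∀ i ∈ F, ∀ i' ∈ F, ∑ j, a i' j * c i j = if i = i' then 1 else 0) :
    LinearIndependent K (fun i : F => a i) := by
  classical
  rw [Fintype.linearIndependent_iff]
  intro y hy i
  have h1 : ∑ j, (∑ i' : F, y i' • a i') j * c i j = 0 := by
    rw [hy]; simp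
  have h2 : ∑ j, (∑ i' : F, y i' • a i') j * c i j = ∑ i' : F, y i' * (∑ j, a i' j * c i j) := by
    simp only [Finset.sum_apply, Pi.smul_apply, smul_eq_mul, Finset.sum_mul, Finset.mul_sum]
    rw [Finset.sum_comm]
    refine Finset.sum_congr rfl fun i' _ => Finset.sum_congr rfl fun j _ => by ring
  rw [h2] at h1
  have h3 : ∀ i' : F, y i' * (∑ j, a i' j * c i j) = if i = i' then y i' else 0 := by
    intro i'
    rw [h i i.2 i' i'.2]
    by_cases hii : i = i'
    · subst hii; simp
    · rw [if_neg (fun h => hii (Subtype.ext h)), if_neg hii, mul_zero]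
  rw [Finset.sum_congr rfl fun i' _ => h3 i', Finset.sum_ite_eq] at h1
  simpa using h1

lemma left_of_li {K : Type} [Field K] {n m : ℕ} (F : Finset (Fin n)) (a : Fin n → Fin m → K)
    (h : LinearIndependent K (fun i : F => a i)) :
    ∃ c : Fin n → Fin m → K, ∀ i ∈ F, ∀ i' ∈ F, ∑ j, a i' j * c i j = if i = i' then 1 else 0 := by
  classical
  have hinj := linearIndependent_iff_injective_fintypeLinearCombination.1 h
  obtain ⟨g, hg⟩ := LinearMap.exists_leftInverse_of_injective
    (Fintype.linearCombination K (fun i : F => a i)) (LinearMap.ker_eq_bot.2 hinj)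
  refine ⟨fun i j => if hi : i ∈ F then g (Pi.single j 1) ⟨i, hi⟩ else 0, ?_⟩
  intro i hi i' hi'
  have h1 : g (a i') = Pi.single (⟨i', hi'⟩ : F) 1 := by
    have h2 := LinearMap.congr_fun hg (Pi.single (⟨i', hi'⟩ : F) 1)
    simpa [Fintype.linearCombination_apply_single] using h2
  have h3 : a i' = ∑ j, a i' j • (Pi.single j (1 : K) : Fin m → K) := by
    ext k
    simp [Finset.sum_apply, Pi.single_apply]
  have h4 : g (a i') ⟨i, hi⟩ = ∑ j, a i' j * g (Pi.single j 1) ⟨i, hi⟩ := by
    conv_lhs => rw [h3]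
    rw [map_sum, Finset.sum_apply]
    refine Finset.sum_congr rfl fun j _ => ?_
    rw [map_smul]
    rfl
  simp only [hi, dif_pos]
  rw [← h4, h1, Pi.single_apply]
  simp only [Subtype.mk.injEq]

lemma rel_of_not {K : Type} [Field K] {n m : ℕ} (F : Finset (Fin n)) (a : Fin n → Fin m → K)
    (h : ¬ LinearIndependent K (fun i : F => a i)) :
    ∃ x : Fin n → K, (∃ i ∈ F, x i = 1) ∧ ∀ j, ∑ i ∈ F, x i * a i j = 0 := by
  classical
  rw [Fintype.not_linearIndependent_iff] at h
  obtain ⟨g, hg, i0, hi0⟩ := h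
  refine ⟨fun i => if hi : i ∈ F then (g i0)⁻¹ * g ⟨i, hi⟩ else 0, ⟨i0, i0.2, ?_⟩, ?_⟩
  · simp [hi0]
  · intro j
    have h1 := congrFun hg j
    rw [Finset.sum_apply] at h1
    rw [← Finset.sum_coe_sort F]
    have h2 : ∀ i : F, (if hi : (i : Fin n) ∈ F then (g i0)⁻¹ * g ⟨i, hi⟩ else 0) * a i j =
        (g i0)⁻¹ * (g i • a i) j := by
      intro i
      simp [mul_assoc]
    rw [Finset.sum_congr rfl fun i _ => h2 i, ← Finset.mul_sum, h1]
    simp

lemma not_of_rel {K : Type} [Field K] {n m : ℕ} (F : Finset (Fin n)) (a : Fin n → Fin m → K)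
    (x : Fin n → K) (hx : ∃ i ∈ F, x i = 1) (h : ∀ j, ∑ i ∈ F, x i * a i j = 0) :
    ¬ LinearIndependent K (fun i : F => a i) := by
  classical
  rw [Fintype.not_linearIndependent_iff]
  obtain ⟨i0, hi0, h1⟩ := hx
  refine ⟨fun i => x i, ?_, ⟨i0, hi0⟩, by simp [h1]⟩
  ext j
  rw [Finset.sum_apply]
  have := h j
  rw [← Finset.sum_coe_sort F] at this
  simpa using this

theorem to_complex {L : Type} [Field L] [CharZero L] {V : Type} [AddCommGroup V] [Module L V]
    {n : ℕ} (v : Fin n → V) :
    ∃ (m : ℕ) (w : Fin n → Fin m → ℂ), ∀ F : Finset (Fin n),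
      LinearIndependent L (fun i : F => v i) ↔ LinearIndependent ℂ (fun i : F => w i) := by
  classical
  let W := Submodule.span L (Set.range v)
  have : FiniteDimensional L W := FiniteDimensional.span_of_finite L (Set.finite_range v)
  let m := Module.finrank L W
  let e : W ≃ₗ[L] (Fin m → L) := (Module.finBasis L W).equivFun
  let v' : Fin n → W := fun i => ⟨v i, Submodule.subset_span (Set.mem_range_self i)⟩
  let a : Fin n → Fin m → L := fun i => e (v' i)
  have hLI : ∀ F : Finset (Fin n), LinearIndependent L (fun i : F => v i) ↔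
      LinearIndependent L (fun i : F => a i) := by
    intro F
    have h1 : LinearIndependent L (fun i : F => v i) ↔ LinearIndependent L (fun i : F => v' i) :=
      LinearMap.linearIndependent_iff (v := fun i : F => v' i) W.subtype (Submodule.ker_subtype W)
    have h2 : LinearIndependent L (fun i : F => a i) ↔ LinearIndependent L (fun i : F => v' i) :=
      LinearMap.linearIndependent_iff (v := fun i : F => v' i) (e : W →ₗ[L] (Fin m → L))
        (LinearEquiv.ker e)
    rw [h1, h2]
  have hc : ∀ F : Finset (Fin n), ∃ c : Fin n → Fin m → L,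
      LinearIndependent L (fun i : F => a i) →
      ∀ i ∈ F, ∀ i' ∈ F, ∑ j, a i' j * c i j = if i = i' then 1 else 0 := by
    intro F
    by_cases h : LinearIndependent L (fun i : F => a i)
    · obtain ⟨c, hc⟩ := left_of_li F a h
      exact ⟨c, fun _ => hc⟩
    · exact ⟨fun _ _ => 0, fun h' => absurd h' h⟩
  have hx : ∀ F : Finset (Fin n), ∃ x : Fin n → L, ¬ LinearIndependent L (fun i : F => a i) →
      (∃ i ∈ F, x i = 1) ∧ ∀ j, ∑ i ∈ F, x i * a i j = 0 := by
    intro F
    by_cases h : LinearIndependent L (fun i : F => a i)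
    · exact ⟨fun _ => 0, fun h' => absurd h h'⟩
    · obtain ⟨x, hx⟩ := rel_of_not F a h
      exact ⟨x, fun _ => hx⟩
  choose c hc using hc
  choose x hx using hx
  let S : Finset L := (univ.image fun p : Fin n × Fin m => a p.1 p.2) ∪
    (univ.image fun p : Finset (Fin n) × Fin n × Fin m => c p.1 p.2.1 p.2.2) ∪
    (univ.image fun p : Finset (Fin n) × Fin n => x p.1 p.2)
  have ha : ∀ i j, a i j ∈ Algebra.adjoin ℚ (S : Set L) := fun i j =>
    Algebra.subset_adjoin (by
      simp only [S, coe_union, Set.mem_union]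
      exact Or.inl (Or.inl (mem_coe.2 (mem_image.2 ⟨(i, j), mem_univ _, rfl⟩))))
  have hcm : ∀ F i j, c F i j ∈ Algebra.adjoin ℚ (S : Set L) := fun F i j =>
    Algebra.subset_adjoin (by
      simp only [S, coe_union, Set.mem_union]
      exact Or.inl (Or.inr (mem_coe.2 (mem_image.2 ⟨(F, i, j), mem_univ _, rfl⟩))))
  have hxm : ∀ F i, x F i ∈ Algebra.adjoin ℚ (S : Set L) := fun F i =>
    Algebra.subset_adjoin (by
      simp only [S, coe_union, Set.mem_union]
      exact Or.inr (mem_coe.2 (mem_image.2 ⟨(F, i), mem_univ _, rfl⟩)))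
  obtain ⟨φ⟩ := exists_hom S
  let w : Fin n → Fin m → ℂ := fun i j => φ ⟨a i j, ha i j⟩
  refine ⟨m, w, fun F => ?_⟩
  rw [hLI]
  constructor
  · intro h
    refine li_of_left F w (fun i j => φ ⟨c F i j, hcm F i j⟩) ?_
    intro i hi i' hi'
    have h1 : ∑ j, (⟨a i' j, ha i' j⟩ : Algebra.adjoin ℚ (S : Set L)) * ⟨c F i j, hcm F i j⟩ =
        if i = i' then 1 else 0 := by
      apply Subtype.ext
      push_cast
      rw [hc F h i hi i' hi']
      split_ifs <;> rfl
    have h2 := congrArg φ h1
    rw [map_sum] at h2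
    simp only [map_mul] at h2
    rw [h2]
    split_ifs <;> simp
  · intro h
    by_contra hno
    obtain ⟨⟨i0, hi0, h0⟩, h1⟩ := hx F hno
    refine not_of_rel F w (fun i => φ ⟨x F i, hxm F i⟩) ⟨i0, hi0, ?_⟩ ?_ h
    · have : (⟨x F i0, hxm F i0⟩ : Algebra.adjoin ℚ (S : Set L)) = 1 := Subtype.ext h0
      simp only [this, map_one]
    · intro j
      have h2 : ∑ i ∈ F, (⟨x F i, hxm F i⟩ : Algebra.adjoin ℚ (S : Set L)) * ⟨a i j, ha i j⟩ = 0 := by
        apply Subtype.ext
        push_cast
        exact h1 j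
      have h3 := congrArg φ h2
      rw [map_sum] at h3
      simpa only [map_mul, map_zero] using h3

end Pool.Agent.H17TC
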